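import Mathlib
import Pool.Agent.TH278.DX.Final
import Pool.Agent.Y187.KP.Step

/-!
A representation with an invariant operator between `1` and `κ ^ 2` is within `κ - 1` of a
unitary representation.
-/

set_option autoImplicit false

noncomputable section

namespace Pool.Agent.Y187.DX

open Pool.Agent.TH278.DX

open scoped ComplexOrder InnerProductSpace

theorem near_of_inv {G H : Type} [Group G] [NormedAddCommGroup H] [InnerProductSpace ℂ H]
    [CompleteSpace H] (π : G →* (H →L[ℂ] H)ˣ) (κ : ℝ) (hκ : 1 ≤ κ) (hI : Inv π 1 (κ ^ 2)) :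
    ∃ σ : G →* (H →L[ℂ] H)ˣ, (∀ g, ((σ g : (H →L[ℂ] H)ˣ) : H →L[ℂ] H) ∈ unitary (H →L[ℂ] H)) ∧
      ∀ g, ‖((π g : (H →L[ℂ] H)ˣ) : H →L[ℂ] H) - ((σ g : (H →L[ℂ] H)ˣ) : H →L[ℂ] H)‖ ≤ κ - 1 := by
  obtain ⟨A, hsym, hm, hM, hinv⟩ := hI
  have hre : ∀ (B : H →L[ℂ] H) (r : ℝ) (x : H),
      ((B - algebraMap ℝ (H →L[ℂ] H) r : H →L[ℂ] H).reApplyInnerSelf x) =
        (inner ℂ (B x) x).re - r * ‖x‖ ^ 2 := by
    intro B r x
    have h3 : (inner ℂ x x).re = ‖x‖ ^ 2 := by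
      have := inner_self_eq_norm_sq (𝕜 := ℂ) x
      simpa using this
    have h5 : (algebraMap ℝ (H →L[ℂ] H) r) x = (r : ℂ) • x := by
      rw [Algebra.algebraMap_eq_smul_one]
      simp
    rw [ContinuousLinearMap.reApplyInnerSelf_apply, sub_apply, inner_sub_left, map_sub, h5,
      inner_smul_left]
    simp only [RCLike.re_to_complex, Complex.conj_ofReal, Complex.re_ofReal_mul, h3]
  have hamap : ∀ (r : ℝ) (x : H), (algebraMap ℝ (H →L[ℂ] H) r) x = (r : ℂ) • x := by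
    intro r x
    rw [Algebra.algebraMap_eq_smul_one]
    simp
  have hA0 : (0 : H →L[ℂ] H) ≤ A := by
    rw [ContinuousLinearMap.nonneg_iff_isPositive]
    refine ⟨fun x y => hsym x y, fun x => ?_⟩
    have h1 := hm x
    rw [one_mul] at h1
    exact (sq_nonneg _).trans h1
  have h1A : algebraMap ℝ (H →L[ℂ] H) 1 ≤ A := by
    rw [← sub_nonneg, ContinuousLinearMap.nonneg_iff_isPositive]
    refine ⟨fun x y => ?_, fun x => ?_⟩
    · have h2 := hsym x y
      simp only [ContinuousLinearMap.coe_coe, sub_apply, inner_sub_left, inner_sub_right,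
        h2, hamap, inner_smul_left, inner_smul_right, Complex.conj_ofReal]
    · have h1 := hm x
      rw [hre]
      linarith
  have hA2 : A ≤ algebraMap ℝ (H →L[ℂ] H) (κ ^ 2) := by
    rw [← sub_nonneg, ContinuousLinearMap.nonneg_iff_isPositive]
    refine ⟨fun x y => ?_, fun x => ?_⟩
    · have h2 := hsym x y
      simp only [ContinuousLinearMap.coe_coe, sub_apply, inner_sub_left, inner_sub_right,
        h2, hamap, inner_smul_left, inner_smul_right, Complex.conj_ofReal]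
    · have h1 := hM x
      have h2 := hre A (κ ^ 2) x
      have h3 : ((algebraMap ℝ (H →L[ℂ] H) (κ ^ 2) - A : H →L[ℂ] H).reApplyInnerSelf x) =
          -((A - algebraMap ℝ (H →L[ℂ] H) (κ ^ 2) : H →L[ℂ] H).reApplyInnerSelf x) := by
        rw [ContinuousLinearMap.reApplyInnerSelf_apply, ContinuousLinearMap.reApplyInnerSelf_apply,
          ← map_neg, ← inner_neg_left, ← neg_apply, neg_sub]
      rw [h3, h2]
      linarith
  set S : H →L[ℂ] H := CFC.sqrt A with hSdef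
  have hSS : S * S = A := CFC.sqrt_mul_sqrt_self A hA0
  have hS0 : (0 : H →L[ℂ] H) ≤ S := CFC.sqrt_nonneg A
  have hSsa : IsSelfAdjoint S := hS0.isSelfAdjoint
  have hsq : ∀ r : ℝ, 0 ≤ r → CFC.sqrt (algebraMap ℝ (H →L[ℂ] H) (r ^ 2)) =
      algebraMap ℝ (H →L[ℂ] H) r := by
    intro r hr
    rw [CFC.sqrt_eq_iff _ _ (KP.algebraMap_nonneg' (sq_nonneg r)) (KP.algebraMap_nonneg' hr),
      ← map_mul, sq]
  have hS1 : algebraMap ℝ (H →L[ℂ] H) 1 ≤ S := by
    have h1 : CFC.sqrt (algebraMap ℝ (H →L[ℂ] H) (1 ^ 2)) ≤ CFC.sqrt A :=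
      CFC.sqrt_le_sqrt _ _ (by simpa using h1A)
    rwa [hsq 1 zero_le_one] at h1
  have hS2 : S ≤ algebraMap ℝ (H →L[ℂ] H) κ := by
    have h1 : CFC.sqrt A ≤ CFC.sqrt (algebraMap ℝ (H →L[ℂ] H) (κ ^ 2)) :=
      CFC.sqrt_le_sqrt _ _ hA2
    rwa [hsq κ (by linarith)] at h1
  have hSsym : ∀ x y : H, inner ℂ (S x) y = inner ℂ x (S y) := by
    rw [ContinuousLinearMap.nonneg_iff_isPositive] at hS0
    exact fun x y => hS0.1 x y
  have hSA : ∀ x y : H, inner ℂ (S x) (S y) = inner ℂ (A x) y := by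
    intro x y
    rw [← hSsym, ← hSS]
    rfl
  have hSn : ∀ x : H, ‖S x‖ ^ 2 = (inner ℂ (A x) x).re := by
    intro x
    have := inner_self_eq_norm_sq (𝕜 := ℂ) (S x)
    rw [hSA] at this
    simpa using this.symm
  have hSu : IsUnit S := by
    have := CStarAlgebra.isUnit_of_le (1 : H →L[ℂ] H) (b := S) (by simpa using hS1) (by cfc_tac)
    exact this
  obtain ⟨s, hs⟩ := hSu
  have hsr : ∀ x, S (((s⁻¹ : (H →L[ℂ] H)ˣ) : H →L[ℂ] H) x) = x := by
    intro x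
    have h1 : S * ((s⁻¹ : (H →L[ℂ] H)ˣ) : H →L[ℂ] H) = 1 := by rw [← hs]; exact s.mul_inv
    have := congrArg (fun f : H →L[ℂ] H => f x) h1
    simpa using this
  have hn2 : ‖((s⁻¹ : (H →L[ℂ] H)ˣ) : H →L[ℂ] H)‖ ≤ 1 := by
    refine ContinuousLinearMap.opNorm_le_bound _ zero_le_one fun x => ?_
    have h1 := hm (((s⁻¹ : (H →L[ℂ] H)ˣ) : H →L[ℂ] H) x)
    rw [← hSn, hsr, one_mul] at h1
    rw [one_mul]
    exact (pow_le_pow_iff_left₀ (norm_nonneg _) (norm_nonneg _) two_ne_zero).1 h1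
  have hU : ∀ g, ((s * π g * s⁻¹ : (H →L[ℂ] H)ˣ) : H →L[ℂ] H) ∈ unitary (H →L[ℂ] H) := by
    intro g
    set u : (H →L[ℂ] H)ˣ := s * π g * s⁻¹ with hu
    set U : H →L[ℂ] H := (u : H →L[ℂ] H) with hUdef
    have hUin : ∀ x y : H, inner ℂ (U x) (U y) = inner ℂ x y := by
      intro x y
      have h3 : U = S * ((π g : (H →L[ℂ] H)ˣ) : H →L[ℂ] H) *
          ((s⁻¹ : (H →L[ℂ] H)ˣ) : H →L[ℂ] H) := by
        rw [hUdef, hu, Units.val_mul, Units.val_mul, hs]
      rw [h3]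
      simp only [mul_apply_eq_comp]
      rw [hSA, hinv, ← hSA, hsr, hsr]
    have h4 : ContinuousLinearMap.adjoint U * U = 1 := by
      ext x
      apply ext_inner_right ℂ
      intro y
      rw [mul_apply_eq_comp, ContinuousLinearMap.adjoint_inner_left, hUin,
        one_apply_eq_self]
    rw [Unitary.mem_iff, ContinuousLinearMap.star_eq_adjoint]
    refine ⟨h4, ?_⟩
    have h5 : ContinuousLinearMap.adjoint U = ((u⁻¹ : (H →L[ℂ] H)ˣ) : H →L[ℂ] H) :=
      Units.eq_inv_of_mul_eq_one_right h4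
    rw [h5]
    exact u.mul_inv
  refine ⟨(MulAut.conj s).toMonoidHom.comp π, fun g => hU g, fun g => ?_⟩
  set W : H →L[ℂ] H := ((s * π g * s⁻¹ : (H →L[ℂ] H)ˣ) : H →L[ℂ] H) with hW
  have hval : (((MulAut.conj s).toMonoidHom.comp π g : (H →L[ℂ] H)ˣ) : H →L[ℂ] H) = W := rfl
  rw [hval]
  set lam : ℝ := (κ + 1) / 2 with hlam
  set D : H →L[ℂ] H := S - algebraMap ℝ (H →L[ℂ] H) lam with hD
  have hDn : ‖D‖ ≤ (κ - 1) / 2 := by
    refine KP.norm_le_of_bounds (hSsa.sub (IsSelfAdjoint.algebraMap _ (IsSelfAdjoint.all lam)))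
      (by linarith) ?_ ?_
    · rw [sub_le_iff_le_add, ← map_add]
      refine hS2.trans (le_of_eq ?_)
      congr 1
      rw [hlam]; ring
    · rw [le_sub_iff_add_le, ← map_neg, ← map_add]
      refine le_trans (le_of_eq ?_) hS1
      congr 1
      rw [hlam]; ring
  have hWn : ‖W‖ ≤ 1 := KP.norm_unitary_le (hU g)
  have hkey : ((π g : (H →L[ℂ] H)ˣ) : H →L[ℂ] H) - W =
      ((s⁻¹ : (H →L[ℂ] H)ˣ) : H →L[ℂ] H) * (W * D - D * W) := by
    have e1 : W * D - D * W = W * S - S * W := by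
      rw [hD, mul_sub, sub_mul, Algebra.commutes lam W]
      abel
    have e2 : W * S = S * ((π g : (H →L[ℂ] H)ˣ) : H →L[ℂ] H) := by
      rw [hW, ← hs, ← Units.val_mul, ← Units.val_mul]
      congr 1
      group
    have e3 : ((s⁻¹ : (H →L[ℂ] H)ˣ) : H →L[ℂ] H) * S = 1 := by
      rw [← hs]; exact s.inv_mul
    rw [e1, e2, ← mul_sub, ← mul_assoc, e3, one_mul]
  rw [hkey]
  calc ‖((s⁻¹ : (H →L[ℂ] H)ˣ) : H →L[ℂ] H) * (W * D - D * W)‖
      ≤ ‖((s⁻¹ : (H →L[ℂ] H)ˣ) : H →L[ℂ] H)‖ * ‖W * D - D * W‖ := norm_mul_le _ _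
    _ ≤ 1 * (‖W‖ * ‖D‖ + ‖D‖ * ‖W‖) := by
        gcongr
        exact (norm_sub_le _ _).trans (add_le_add (norm_mul_le _ _) (norm_mul_le _ _))
    _ ≤ 1 * (1 * ((κ - 1) / 2) + (κ - 1) / 2 * 1) := by
        gcongr <;> linarith
    _ = κ - 1 := by ring

end Pool.Agent.Y187.DX
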